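import Pool.Agent.N89.HB.Stm2

/-!
# Project HB, leaf NGI (helper588 for helper89): the rational points of an irreducible covering which is
not geometrically irreducible lie over a proper closed subset
-/

set_option autoImplicit false

namespace Pool.Agent.N588.HB.NGI

open Polynomial NumberField Pool.Agent.N89.HX Pool.Agent.N89.HG Pool.Agent.N89.HB

/-- clearing denominators of a polynomial -/
theorem denom {R F : Type} [CommRing R] [IsDomain R] [Field F] [Algebra R F] [IsFractionRing R F]
    (A : F[X]) : ∃ (B : R) (A0 : R[X]), B ≠ 0 ∧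
      A0.map (algebraMap R F) = C (algebraMap R F B) * A := by
  obtain ⟨b, hb, h⟩ := IsLocalization.integerNormalization_spec (nonZeroDivisors R) A
  refine ⟨b, IsLocalization.integerNormalization (nonZeroDivisors R) A,
    nonZeroDivisors.ne_zero hb, ?_⟩
  rw [h]
  ext n
  simp [Algebra.smul_def]

theorem abs {O L R F : Type} [CommRing O] [IsDomain O] [Field L] [Algebra O L] [IsFractionRing O L]
    [CommRing R] [IsDomain R] [Field F] [Algebra R F] [IsFractionRing R F] (c : O →+* R)
    (m : L[X]) (H : R[X]) (A q : F[X]) (γ : L →+* F)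
    (hγ : ∀ z, γ (algebraMap O L z) = algebraMap R F (c z)) (hm : ∀ a : L, m.eval a ≠ 0)
    (hid : (m.map γ).comp A = H.map (algebraMap R F) * q) :
    ∃ B : R, B ≠ 0 ∧ ∀ (ev : R →+* L) (x : L), (∀ z, ev (c z) = algebraMap O L z) →
      H.eval₂ ev x = 0 → ev B = 0 := by
  obtain ⟨b, m0, hb, hm0⟩ := denom (R := O) m
  obtain ⟨B1, A0, hB1, hA0⟩ := denom (R := R) A
  obtain ⟨B2, q0, hB2, hq0⟩ := denom (R := R) q
  refine ⟨B1 * B2, mul_ne_zero hB1 hB2, fun ev x hev hx => ?_⟩
  by_contra hB
  rw [map_mul] at hB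
  have hev1 : ev B1 ≠ 0 := fun h => hB (by rw [h, zero_mul])
  have hev2 : ev B2 ≠ 0 := fun h => hB (by rw [h, mul_zero])
  let S : Submonoid R := Submonoid.comap ev (nonZeroDivisors L)
  have hS : ∀ r : R, r ∈ S ↔ ev r ≠ 0 := fun r => by
    change ev r ∈ nonZeroDivisors L ↔ _
    exact mem_nonZeroDivisors_iff_ne_zero
  have hSle : S ≤ nonZeroDivisors R := fun r hr => by
    rw [mem_nonZeroDivisors_iff_ne_zero]
    rintro rfl
    exact (hS 0).1 hr (map_zero ev)
  have hgF : ∀ y : S, IsUnit (algebraMap R F y) := fun y =>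
    IsUnit.mk0 _ (fun h => nonZeroDivisors.ne_zero (hSle y.2)
      ((map_eq_zero_iff _ (IsFractionRing.injective R F)).1 h))
  have hgL : ∀ y : S, IsUnit (ev y) := fun y => IsUnit.mk0 _ ((hS y).1 y.2)
  let ι : Localization S →+* F := IsLocalization.lift (M := S) (g := algebraMap R F) hgF
  let ε : Localization S →+* L := IsLocalization.lift (M := S) (g := ev) hgL
  have hι : ∀ r : R, ι (algebraMap R (Localization S) r) = algebraMap R F r := fun r =>
    IsLocalization.lift_eq hgF r
  have hε : ∀ r : R, ε (algebraMap R (Localization S) r) = ev r := fun r =>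
    IsLocalization.lift_eq hgL r
  have hιinj : Function.Injective ι := by
    refine (IsLocalization.lift_injective_iff hgF).2 fun x y => ?_
    rw [(IsFractionRing.injective R F).eq_iff,
      (IsLocalization.injective (Localization S) hSle).eq_iff]
  have hιc : ι.comp (algebraMap R (Localization S)) = algebraMap R F := RingHom.ext hι
  have hεc : ε.comp (algebraMap R (Localization S)) = ev := RingHom.ext hε
  -- a polynomial with a denominator in `S` comes from the localization
  have key : ∀ (B : R) (P0 : R[X]) (P : F[X]), ev B ≠ 0 →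
      P0.map (algebraMap R F) = C (algebraMap R F B) * P →
      ∃ P' : (Localization S)[X], P'.map ι = P := by
    intro B P0 P hB hP
    obtain ⟨u, hu⟩ := IsLocalization.map_units (Localization S) (⟨B, (hS B).2 hB⟩ : S)
    refine ⟨C (↑u⁻¹ : Localization S) * P0.map (algebraMap R (Localization S)), ?_⟩
    have h1 : ι (↑u⁻¹ : Localization S) * algebraMap R F B = 1 := by
      have hu' : (u : Localization S) = algebraMap R (Localization S) B := hu
      rw [← hι, ← hu', ← map_mul, Units.inv_mul, map_one]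
    rw [Polynomial.map_mul, Polynomial.map_C, Polynomial.map_map, hιc, hP, ← mul_assoc, ← C_mul,
      h1, C_1, one_mul]
  obtain ⟨A', hA'⟩ := key B1 A0 A hev1 hA0
  obtain ⟨q', hq'⟩ := key B2 q0 q hev2 hq0
  -- the identity over the localization
  have hloc : (m0.map ((algebraMap R (Localization S)).comp c)).comp A' =
      C (algebraMap R (Localization S) (c b)) * (H.map (algebraMap R (Localization S)) * q') := by
    apply Polynomial.map_injective ι hιinj
    rw [Polynomial.map_comp, Polynomial.map_map, hA', Polynomial.map_mul, Polynomial.map_mul,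
      Polynomial.map_map, hιc, hq', Polynomial.map_C, hι, ← hid]
    have h2 : ι.comp ((algebraMap R (Localization S)).comp c) = γ.comp (algebraMap O L) := by
      ext z
      rw [RingHom.comp_apply, RingHom.comp_apply, RingHom.comp_apply, hι, hγ]
    rw [h2, ← Polynomial.map_map, hm0, Polynomial.map_mul, Polynomial.map_C, hγ,
      Polynomial.mul_comp, Polynomial.C_comp]
  -- evaluate
  have hev' := congrArg (Polynomial.eval₂ ε x) hloc
  have h3 : ε.comp ((algebraMap R (Localization S)).comp c) = algebraMap O L := by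
    ext z
    rw [RingHom.comp_apply, RingHom.comp_apply, hε, hev]
  rw [Polynomial.eval₂_comp, Polynomial.eval₂_map, h3, Polynomial.eval₂_mul, Polynomial.eval₂_mul,
    Polynomial.eval₂_map, hεc, hx, zero_mul, mul_zero, Polynomial.eval₂_eq_eval_map, hm0,
    Polynomial.eval_mul, Polynomial.eval_C] at hev'
  rcases mul_eq_zero.1 hev' with h | h
  · exact hb ((map_eq_zero_iff _ (IsFractionRing.injective O L)).1 h)
  · exact hm _ h

/-- a homogeneous component which vanishes on a set stable under scalars -/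
theorem homog {L : Type} [Field L] [NumberField L] {k : ℕ} (F0 : MvPolynomial (Fin k) (𝓞 L))
    (hF0 : F0 ≠ 0) (Z : Set (Fin k → L)) (hZ : ∀ t ∈ Z, ∀ l : L, (fun i => l * t i) ∈ Z)
    (hv : ∀ t ∈ Z, MvPolynomial.eval₂ (algebraMap (𝓞 L) L) t F0 = 0) :
    ∃ (F : MvPolynomial (Fin k) (𝓞 L)) (D' : ℕ), F ≠ 0 ∧ F.IsHomogeneous D' ∧
      ∀ t ∈ Z, MvPolynomial.eval₂ (algebraMap (𝓞 L) L) t F = 0 := by
  obtain ⟨d, hd⟩ : ∃ d, MvPolynomial.homogeneousComponent d F0 ≠ 0 := by
    by_contra h
    push Not at h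
    apply hF0
    rw [← MvPolynomial.sum_homogeneousComponent F0]
    exact Finset.sum_eq_zero fun i _ => h i
  have hdle : d ∈ Finset.range (F0.totalDegree + 1) := by
    by_contra h
    rw [Finset.mem_range, not_lt] at h
    exact hd (MvPolynomial.homogeneousComponent_eq_zero _ _ (by omega))
  refine ⟨_, d, hd, MvPolynomial.homogeneousComponent_isHomogeneous d F0, fun t ht => ?_⟩
  set P : L[X] := ∑ i ∈ Finset.range (F0.totalDegree + 1),
    C (MvPolynomial.eval₂ (algebraMap (𝓞 L) L) t (MvPolynomial.homogeneousComponent i F0)) * X ^ i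
    with hP
  have hPz : P = 0 := by
    apply Polynomial.eq_zero_of_infinite_isRoot
    refine Set.infinite_univ.mono fun l _ => ?_
    change P.eval l = 0
    rw [← hv _ (hZ t ht l)]
    conv_rhs => rw [← MvPolynomial.sum_homogeneousComponent F0]
    rw [hP, Polynomial.eval_finsetSum, MvPolynomial.eval₂_sum]
    refine Finset.sum_congr rfl fun i _ => ?_
    rw [Polynomial.eval_mul, Polynomial.eval_C, Polynomial.eval_pow, Polynomial.eval_X]
    have hi := MvPolynomial.homogeneousComponent_isHomogeneous i F0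
    rw [MvPolynomial.eval₂_eq, MvPolynomial.eval₂_eq, Finset.sum_mul]
    refine Finset.sum_congr rfl fun s hs => ?_
    rw [Finset.prod_congr rfl fun j _ => mul_pow l (t j) (s j), Finset.prod_mul_distrib,
      Finset.prod_pow_eq_pow_sum]
    have : ∑ j ∈ s.support, s j = i := by
      have := hi (MvPolynomial.mem_support_iff.1 hs)
      rw [← this]
      simp [Finsupp.weight_apply, Finsupp.sum]
    rw [this]
    ring
  have := congrArg (fun Q : L[X] => Q.coeff d) hPz
  simp only [hP, Polynomial.finsetSum_coeff, Polynomial.coeff_C_mul, Polynomial.coeff_X_pow,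
    Polynomial.coeff_zero, mul_ite, mul_one, mul_zero] at this
  rw [Finset.sum_ite_eq, if_pos hdle] at this
  exact this

theorem main : S_NGA → S_NGI := by
  intro hNGA L _ _ k e D h hh hlast hirr hng
  obtain ⟨m, A, q, γ, hm, hmd, hγ, hid⟩ := hNGA L k e h hlast hirr hng
  have hroot : ∀ a : L, m.eval a ≠ 0 := by
    intro a ha
    have h1 : m.degree = ((1 : ℕ) : WithBot ℕ) :=
      Polynomial.degree_eq_one_of_irreducible_of_root hm ha
    have h2 : m.natDegree = 1 := Polynomial.natDegree_eq_of_degree_eq_some h1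
    omega
  set H : (MvPolynomial (Fin k) (𝓞 L))[X] := ∑ i : Fin (e + 1), C (h i) * X ^ (i : ℕ) with hH
  have hHmap : H.map (algebraMap (MvPolynomial (Fin k) (𝓞 L)) (Fr k (𝓞 L))) =
      gpol (RingHom.id (𝓞 L)) h := by
    rw [hH, Polynomial.map_sum, gpol]
    refine Finset.sum_congr rfl fun i _ => ?_
    rw [Polynomial.map_mul, Polynomial.map_C, Polynomial.map_pow, Polynomial.map_X,
      MvPolynomial.map_id]
  rw [← hHmap] at hid
  obtain ⟨B, hB, hBv⟩ := abs (O := 𝓞 L) (L := L) (R := MvPolynomial (Fin k) (𝓞 L))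
    (F := Fr k (𝓞 L)) MvPolynomial.C m H A q γ hγ hroot hid
  let Z : Set (Fin k → L) := {t | ∃ x : L, ∑ i : Fin (e + 1),
    MvPolynomial.eval₂ (algebraMap (𝓞 L) L) t (h i) * x ^ (i : ℕ) = 0}
  have hZ : ∀ t ∈ Z, ∀ l : L, (fun i => l * t i) ∈ Z := by
    rintro t ⟨x, hx⟩ l
    refine ⟨x, ?_⟩
    have hs : ∀ i, MvPolynomial.eval₂ (algebraMap (𝓞 L) L) (fun j => l * t j) (h i) =
        l ^ D * MvPolynomial.eval₂ (algebraMap (𝓞 L) L) t (h i) := by
      intro i
      rw [MvPolynomial.eval₂_eq, MvPolynomial.eval₂_eq, Finset.mul_sum]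
      refine Finset.sum_congr rfl fun s hs => ?_
      rw [Finset.prod_congr rfl fun j _ => mul_pow l (t j) (s j), Finset.prod_mul_distrib,
        Finset.prod_pow_eq_pow_sum]
      have : ∑ j ∈ s.support, s j = D := by
        have := hh i (MvPolynomial.mem_support_iff.1 hs)
        rw [← this]
        simp [Finsupp.weight_apply, Finsupp.sum]
      rw [this]
      ring
    rw [Finset.sum_congr rfl fun i _ => by rw [hs i, mul_assoc], ← Finset.mul_sum, hx, mul_zero]
  have hv : ∀ t ∈ Z, MvPolynomial.eval₂ (algebraMap (𝓞 L) L) t B = 0 := by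
    rintro t ⟨x, hx⟩
    refine hBv (MvPolynomial.eval₂Hom (algebraMap (𝓞 L) L) t) x (fun z => ?_) ?_
    · exact MvPolynomial.eval₂Hom_C _ _ _
    · rw [hH, Polynomial.eval₂_finsetSum, ← hx]
      refine Finset.sum_congr rfl fun i _ => ?_
      rw [Polynomial.eval₂_mul, Polynomial.eval₂_C, Polynomial.eval₂_pow, Polynomial.eval₂_X]
      rfl
  obtain ⟨F, D', hF, hFh, hFv⟩ := homog B hB Z hZ hv
  exact ⟨F, D', hF, hFh, fun t x hx => hFv t ⟨x, hx⟩⟩

end Pool.Agent.N588.HB.NGI
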